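import Pool.Agent.W586.SK.Stm
import Pool.Agent.H888R2.KT.N3
import Pool.Agent.H888R2.KT.N10
import Pool.Agent.H212R2.KLS.T1

/-!
# ZZ: the Gaussian regularisation of a 1-symmetric log-concave density
-/

set_option autoImplicit false

namespace Pool.Agent.W280.SK

open MeasureTheory Set
open scoped ENNReal InnerProductSpace
open Pool.Agent.H212R2.KLS (mu Bdd)
open Pool.Agent.H888R2.KT (LC zz)
open Pool.Agent.W586.SK

variable {n : ℕ} {ρ : E n → ℝ}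

/-- the unnormalised posterior integral -/
noncomputable def zu (h : ℝ) (ρ : E n → ℝ) (u : E n → ℝ) (y : E n) : ℝ :=
  ∫ x, u x * Real.exp (-(‖x - y‖ ^ 2 / (2 * h))) ∂(mu ρ)

theorem zu_diff (hρ : LC ρ) (h : ℝ) (hh : 0 < h) (u : E n → ℝ) (hu : Continuous u) :
    Differentiable ℝ (zu h ρ u) :=
  fun y => (Pool.Agent.H888R2.KT.N3x.main hρ h hh u hu y).differentiableAt

theorem zu_dv (hρ : LC ρ) (h : ℝ) (hh : 0 < h) (u : E n → ℝ) (hu : Continuous u) (w : E n) :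
    (fun y => fderiv ℝ (zu h ρ u) y w) = fun y => h⁻¹ * (zu h ρ (fun x => u x * ⟪x, w⟫_ℝ) y -
      ⟪y, w⟫_ℝ * zu h ρ u y) := by
  funext y
  have h1 : fderiv ℝ (zu h ρ u) y = _ :=
    (Pool.Agent.H888R2.KT.N3x.main hρ h hh u hu y).fderiv
  rw [h1, Pool.Agent.H888R2.KT.N3x.main_apply hρ h u hu y w]
  rfl

theorem zu_smooth (hρ : LC ρ) (h : ℝ) (hh : 0 < h) (u : E n → ℝ) (hu : Continuous u) :
    ContDiff ℝ 1 (zu h ρ u) := by
  rw [show (1 : WithTop ℕ∞) = 0 + 1 by simp, contDiff_succ_iff_fderiv]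
  refine ⟨zu_diff hρ h hh u hu, by simp, ?_⟩
  rw [contDiff_clm_apply_iff]
  intro w
  have hw : Continuous fun x : E n => ⟪x, w⟫_ℝ := by fun_prop
  rw [zu_dv hρ h hh u hu w, contDiff_zero]
  exact continuous_const.mul (((zu_diff hρ h hh _ (hu.mul hw)).continuous).sub
    (hw.mul (zu_diff hρ h hh u hu).continuous))

theorem zz_zu (h : ℝ) : zz h ρ = zu h ρ fun _ => 1 := by
  funext y
  unfold zz zu
  simp only [one_mul]

theorem zz_smooth (hρ : LC ρ) (h : ℝ) (hh : 0 < h) : ContDiff ℝ 1 (zz h ρ) := by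
  rw [zz_zu]
  exact zu_smooth hρ h hh _ continuous_const

theorem ofReal_zz (hρ : LC ρ) (h : ℝ) (y : E n) :
    ENNReal.ofReal (zz h ρ y) =
      ∫⁻ x, ENNReal.ofReal (ρ x * Real.exp (-(‖x - y‖ ^ 2 / (2 * h)))) := by
  unfold zz
  rw [ofReal_integral_eq_lintegral_ofReal
    (Pool.Agent.H888R2.KT.N3x.integ hρ (by fun_prop))
    (Filter.Eventually.of_forall fun x => (Real.exp_pos _).le)]
  unfold mu
  rw [lintegral_withDensity_eq_lintegral_mul _ hρ.meas.ennreal_ofReal (by fun_prop)]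
  refine lintegral_congr fun x => ?_
  rw [Pi.mul_apply, ENNReal.ofReal_mul (hρ.nonneg x)]

theorem cvx (t : ℝ) (ht0 : 0 < t) (ht1 : t < 1) (a b : E n) :
    ‖(1 - t) • a + t • b‖ ^ 2 ≤ (1 - t) * ‖a‖ ^ 2 + t * ‖b‖ ^ 2 := by
  have t1 : 0 < 1 - t := by linarith
  have h1 : ‖(1 - t) • a + t • b‖ ≤ (1 - t) * ‖a‖ + t * ‖b‖ := by
    refine (norm_add_le _ _).trans ?_
    rw [norm_smul, norm_smul, Real.norm_of_nonneg t1.le, Real.norm_of_nonneg ht0.le]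
  have h2 : ‖(1 - t) • a + t • b‖ ^ 2 ≤ ((1 - t) * ‖a‖ + t * ‖b‖) ^ 2 :=
    pow_le_pow_left₀ (norm_nonneg _) h1 2
  refine h2.trans ?_
  nlinarith [mul_nonneg (mul_nonneg t1.le ht0.le) (sq_nonneg (‖a‖ - ‖b‖))]

theorem pw (hρ : LC ρ) (h : ℝ) (hh : 0 < h) (t : ℝ) (ht0 : 0 < t) (ht1 : t < 1)
    (y z x w : E n) :
    (ρ x * Real.exp (-(‖x - y‖ ^ 2 / (2 * h)))) ^ (1 - t) *
      (ρ w * Real.exp (-(‖w - z‖ ^ 2 / (2 * h)))) ^ t ≤
    ρ ((1 - t) • x + t • w) * Real.exp (-(‖((1 - t) • x + t • w) -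
      ((1 - t) • y + t • z)‖ ^ 2 / (2 * h))) := by
  rw [Real.mul_rpow (hρ.nonneg _) (Real.exp_pos _).le,
    Real.mul_rpow (hρ.nonneg _) (Real.exp_pos _).le, ← Real.exp_mul, ← Real.exp_mul]
  have e1 : ∀ a b c d : ℝ, a * b * (c * d) = a * c * (b * d) := fun a b c d => by ring
  rw [e1, ← Real.exp_add]
  refine mul_le_mul (hρ.logc x w t ht0 ht1) (Real.exp_le_exp.2 ?_) (Real.exp_pos _).le
    (hρ.nonneg _)
  have e2 : ((1 - t) • x + t • w) - ((1 - t) • y + t • z) = (1 - t) • (x - y) + t • (w - z) := by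
    rw [smul_sub, smul_sub]
    abel
  rw [e2]
  have h1 := cvx t ht0 ht1 (x - y) (w - z)
  have h2 : ‖(1 - t) • (x - y) + t • (w - z)‖ ^ 2 / (2 * h) ≤
      ((1 - t) * ‖x - y‖ ^ 2 + t * ‖w - z‖ ^ 2) / (2 * h) :=
    div_le_div_of_nonneg_right h1 (by positivity)
  have h3 : ((1 - t) * ‖x - y‖ ^ 2 + t * ‖w - z‖ ^ 2) / (2 * h) =
      ‖x - y‖ ^ 2 / (2 * h) * (1 - t) + ‖w - z‖ ^ 2 / (2 * h) * t := by ring
  rw [h3] at h2
  linarith

theorem zz_logc (hρ : LC ρ) (h : ℝ) (hh : 0 < h) (y z : E n) (t : ℝ) (ht0 : 0 < t) (ht1 : t < 1) :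
    zz h ρ y ^ (1 - t) * zz h ρ z ^ t ≤ zz h ρ ((1 - t) • y + t • z) := by
  have t1 : 0 < 1 - t := by linarith
  have hy := Pool.Agent.H888R2.KT.N3x.zz_pos' hρ h y
  have hz := Pool.Agent.H888R2.KT.N3x.zz_pos' hρ h z
  have hw := Pool.Agent.H888R2.KT.N3x.zz_pos' hρ h ((1 - t) • y + t • z)
  rw [← ENNReal.ofReal_le_ofReal_iff hw.le, ENNReal.ofReal_mul (Real.rpow_nonneg hy.le _),
    ← ENNReal.ofReal_rpow_of_nonneg hy.le t1.le, ← ENNReal.ofReal_rpow_of_nonneg hz.le ht0.le,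
    ofReal_zz hρ, ofReal_zz hρ, ofReal_zz hρ]
  have hm : ∀ y : E n, Measurable fun x : E n =>
      ENNReal.ofReal (ρ x * Real.exp (-(‖x - y‖ ^ 2 / (2 * h)))) := fun y =>
    (hρ.meas.mul (by fun_prop)).ennreal_ofReal
  refine Pool.Agent.H212R2.KLS.PL volume t ht0 ht1 _ _ _ (hm _) (hm _) (hm _) fun x w => ?_
  have p1 : 0 ≤ ρ x * Real.exp (-(‖x - y‖ ^ 2 / (2 * h))) :=
    mul_nonneg (hρ.nonneg _) (Real.exp_pos _).le
  have p2 : 0 ≤ ρ w * Real.exp (-(‖w - z‖ ^ 2 / (2 * h))) :=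
    mul_nonneg (hρ.nonneg _) (Real.exp_pos _).le
  rw [ENNReal.ofReal_rpow_of_nonneg p1 t1.le, ENNReal.ofReal_rpow_of_nonneg p2 ht0.le,
    ← ENNReal.ofReal_mul (Real.rpow_nonneg p1 _)]
  exact ENNReal.ofReal_le_ofReal (pw hρ h hh t ht0 ht1 y z x w)

/-- signed permutations -/
noncomputable def sp (σ : Equiv.Perm (Fin n)) (s : Fin n → Prop) [DecidablePred s] :
    E n ≃ₗᵢ[ℝ] E n :=
  (LinearIsometryEquiv.piLpCongrLeft 2 ℝ ℝ σ.symm).trans
    (LinearIsometryEquiv.piLpCongrRight 2 fun j =>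
      if s j then LinearIsometryEquiv.refl ℝ ℝ else LinearIsometryEquiv.neg ℝ)

theorem sp_apply (σ : Equiv.Perm (Fin n)) (s : Fin n → Prop) [DecidablePred s] (x : E n)
    (j : Fin n) : sp σ s x j = if s j then x (σ j) else - x (σ j) := by
  unfold sp
  rw [LinearIsometryEquiv.trans_apply, LinearIsometryEquiv.piLpCongrRight_apply]
  show (if s j then LinearIsometryEquiv.refl ℝ ℝ else LinearIsometryEquiv.neg ℝ : ℝ ≃ₗᵢ[ℝ] ℝ)
    (LinearIsometryEquiv.piLpCongrLeft 2 ℝ ℝ σ.symm x j) = _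
  have h1 : LinearIsometryEquiv.piLpCongrLeft 2 ℝ ℝ σ.symm x j = x (σ j) := by
    rw [LinearIsometryEquiv.piLpCongrLeft_apply]
    rfl
  rw [h1]
  split_ifs <;> simp

theorem zz_inv (hs : Sy ρ) (h : ℝ) (σ : Equiv.Perm (Fin n)) (x y : E n)
    (hxy : ∀ i, |y i| = |x (σ i)|) : zz h ρ y = zz h ρ x := by
  classical
  have h1 : y = sp σ (fun i => y i = x (σ i)) x := by
    ext i
    rw [sp_apply]
    split_ifs with hi
    · exact hi
    · rcases abs_eq_abs.1 (hxy i) with h2 | h2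
      · exact absurd h2 hi
      · exact h2
  have h2 : ∀ v, ρ (sp σ (fun i => y i = x (σ i)) v) = ρ v := by
    intro v
    refine hs.inv σ v _ fun i => ?_
    rw [sp_apply]
    split_ifs
    · rfl
    · exact abs_neg _
  rw [h1]
  exact Pool.Agent.H888R2.KT.N10x.zz_eq hs.meas h _ h2 x

theorem zzsy : Pool.Agent.W586.SK.S_ZZ := by
  intro n ρ hs hρ h hh
  have hc := zz_smooth hρ h hh
  refine ⟨⟨fun x => (Pool.Agent.H888R2.KT.N3x.zz_pos' hρ h x).le, hc.continuous.measurable,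
    fun x y t ht0 ht1 => zz_logc hρ h hh x y t ht0 ht1, fun σ x y hxy => zz_inv hs h σ x y hxy⟩,
    hc⟩

end Pool.Agent.W280.SK
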